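import Pool.Agent.Lib.MP_acafa7_al.F.IfaceG

/-! Module QUADN of MP_acafa7_al: quadratic fillings. -/

namespace MSG.F59

open Classical

theorem quadn_st (pex : PExStatement) (d2h : D2HStatement) : QuadNStatement := by
  intro V G C₁ hsc hqi x w hw h3
  obtain ⟨D, hD, M, R, hmin⟩ := pex V G x w hw h3 (hsc x w hw)
  obtain ⟨n, e, hn, hcard⟩ := d2h V D G Set.univ M R w hmin.1 (fun _ => Set.mem_univ _)
  have hq := hqi D M R w hmin
  have hR : R ≠ [] := hmin.1.face.1
  have hlen : w.length - 1 = R.length := by
    rw [hmin.1.walk]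
    unfold PMap.wk
    have : 1 ≤ R.length := List.length_pos_iff.2 hR
    simp only [List.length_append, List.length_map, List.length_take]
    omega
  refine ⟨n, e, hn, ?_⟩
  rw [hlen]
  omega

end MSG.F59
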